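import Pool.Agent.RelCotorsion.Skew

set_option autoImplicit false

namespace Pool.Agent.Results.MP_d608f2_al.PeriodicityFails

open CategoryTheory

/-- The left `A`-module `F` is flat, in the form of the equational criterion: each relation
`∑ a i • x i = 0` in `F` is a consequence of relations in the ring `A`. -/
def IsFlatModule (A F : Type) [Ring A] [AddCommGroup F] [Module A F] : Prop :=
  ∀ (n : ℕ) (a : Fin n → A) (x : Fin n → F), ∑ i, a i • x i = 0 →
    ∃ (m : ℕ) (b : Fin n → Fin m → A) (y : Fin m → F),
      (∀ i, x i = ∑ j, b i j • y j) ∧ ∀ j, ∑ i, a i * b i j = 0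

/-- The left `A`-module `F`, regarded as a left `R`-module by restriction along `f : R → A`, is
projective. -/
def IsProjectiveOver {R A : Type} [Ring R] [Ring A] (f : R →+* A) (F : Type) [AddCommGroup F]
    [Module A F] : Prop :=
  @Module.Projective R _ F _ (Module.compHom F f)

/-- The left `A`-module `C` is `A/R`-cotorsion: `Ext¹_A(F, C) = 0` for each flat left `A`-module
`F` whose underlying `R`-module is projective. -/
def IsRelCotorsion {R A : Type} [Ring R] [Ring A] (f : R →+* A) (C : Type) [AddCommGroup C]
    [Module A C] : Prop :=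
  ∀ (F : Type) [AddCommGroup F] [Module A F], IsFlatModule A F → IsProjectiveOver f F →
    Subsingleton (Abelian.Ext (ModuleCat.of A F) (ModuleCat.of A C) 1)

open RelCotorsion

/-- There are a ring homomorphism `f : R → A` (with `R` commutative) such that `A` is a projective
left `R`-module, and an acyclic complex `C` (indexed by the integers) of `A/R`-cotorsion left
`A`-modules such that no module of cocycles of `C` is `A/R`-cotorsion. -/
theorem result : ∃ (R A : Type) (_ : CommRing R) (_ : Ring A) (f : R →+* A),
    IsProjectiveOver f A ∧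
    ∃ (C : ℤ → Type) (_ : ∀ n, AddCommGroup (C n)) (_ : ∀ n, Module A (C n))
      (d : ∀ n, C n →ₗ[A] C (n + 1)),
      (∀ n, Function.Exact (d n) (d (n + 1))) ∧ (∀ n, IsRelCotorsion f (C n)) ∧
      ∀ n, ¬ IsRelCotorsion f (LinearMap.ker (d n)) := by
  classical
  let k := ZMod 2
  let B := Bt
  let Λ := Lam k B
  let A := Sk k B
  have h : Fresh (ee k : B → Λ) (ss k) := fresh_ring
  have hinf : Infinite B := tower.infinite
  let b0 : B := Classical.arbitrary B
  have he : ee k b0 * ee k b0 = ee k b0 := h.idem b0
  obtain ⟨D, _, _, d, hexact, hext, hdz, hz⟩ := h.exists_D tower mm_isMaximal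
  let f : k × Λ →+* A := (iota Λ A).comp (fLam k (ee k b0) he)
  have hfac : ∀ (F : Type) [AddCommGroup F] [Module A F], IsProjectiveOver f F →
      letI := LMod Λ A F
      ∀ b : B, ∃ s : F →ₗ[Λ] (F →₀ Λ), ∀ x : F,
        Finsupp.linearCombination Λ id (s x) = (ee k b : Λ) • x := by
    intro F _ _ hF
    letI := LMod Λ A F
    intro b
    obtain ⟨g, u, v, huv, hvu, hu, hg⟩ := conj_data (k := k) b0 b
    exact conj_factor F g u v huv hvu hu _ _ hg (factor he F hF)
  have hcot : ∀ (F : Type) [AddCommGroup F] [Module A F], IsProjectiveOver f F →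
      Subsingleton (Abelian.Ext (ModuleCat.of A F) (ModuleCat.of A (Coind Λ A D)) 1) :=
    fun F _ _ hF => coind_ext hext F (hfac F hF)
  refine ⟨k × Λ, A, inferInstance, inferInstance, f, ?_, fun _ => Coind Λ A D,
    fun _ => inferInstance, fun _ => inferInstance, fun _ => Coind.map d,
    fun _ => Coind.map_exact d hexact, fun _ F _ _ _ hF => hcot F hF, fun _ hcon => ?_⟩
  · have h1 := proj2 (k := k) he A
    have h2 : Module.compHom A f = RMod he A := by
      refine Module.ext' _ _ fun r a => ?_
      exact iota_mul _ _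
    unfold IsProjectiveOver
    rw [h2]
    exact h1
  · refine not_subsingleton_ext (fun b a => left_mul_mem b a) (chi k B) chi_one
      (fun x b => chi_mul_mem x b) d hexact hdz hz ?_
    refine hcon (A ⧸ JJ A (ee k)) (fun n a x hx => h.flat_quot n a x hx) ?_
    letI := LMod Λ A (A ⧸ JJ A (ee k : B → Λ))
    refine proj1 he (A ⧸ JJ A (ee k : B → Λ)) fun x => ?_
    obtain ⟨a, rfl⟩ := (JJ A (ee k : B → Λ)).mkQ_surjective x
    change (iota Λ A (ee k b0)) • (JJ A (ee k : B → Λ)).mkQ a = 0
    rw [← map_smul]
    exact (Submodule.Quotient.mk_eq_zero _).2 (left_mul_mem b0 a)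

end Pool.Agent.Results.MP_d608f2_al.PeriodicityFails
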